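import Pool.Agent.Y969.GP.Def

/-!
Project GP (helper969), part RPL: replacement of zeta by the Dirichlet polynomials (job 3884).
-/

set_option autoImplicit false

namespace Pool.Agent.Y434.GP

open Complex Filter Topology MeasureTheory Set
open Pool.Agent.Y969.GP

/-! ### telescoping -/

theorem tele {ι : Type} [DecidableEq ι] (s : Finset ι) (f P : ι → ℂ) (e G : ι → ℝ)
    (hf : ∀ i, ‖f i‖ ≤ G i) (hP : ∀ i, ‖P i‖ ≤ G i) (he : ∀ i, ‖f i - P i‖ ≤ e i) :
    ‖∏ i ∈ s, f i - ∏ i ∈ s, P i‖ ≤ ∑ j ∈ s, ∏ i ∈ s, (if i = j then e i else G i) := by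
  have hG : ∀ i, 0 ≤ G i := fun i => (norm_nonneg _).trans (hf i)
  have he0 : ∀ i, 0 ≤ e i := fun i => (norm_nonneg _).trans (he i)
  induction s using Finset.induction_on with
  | empty => simp
  | insert a s ha ih =>
    rw [Finset.prod_insert ha, Finset.prod_insert ha, Finset.sum_insert ha,
      Finset.prod_insert ha, if_pos rfl]
    have h1 : ∏ i ∈ s, (if i = a then e i else G i) = ∏ i ∈ s, G i :=
      Finset.prod_congr rfl fun i hi => by
        rw [if_neg]
        rintro rfl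
        exact ha hi
    have h2 : ∑ j ∈ s, ∏ i ∈ insert a s, (if i = j then e i else G i) =
        G a * ∑ j ∈ s, ∏ i ∈ s, (if i = j then e i else G i) := by
      rw [Finset.mul_sum]
      refine Finset.sum_congr rfl fun j hj => ?_
      rw [Finset.prod_insert ha, if_neg]
      intro h
      exact ha (h ▸ hj)
    rw [h1, h2]
    have h3 : f a * ∏ i ∈ s, f i - P a * ∏ i ∈ s, P i =
        (f a - P a) * ∏ i ∈ s, f i + P a * (∏ i ∈ s, f i - ∏ i ∈ s, P i) := by ring
    rw [h3]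
    refine (norm_add_le _ _).trans (add_le_add ?_ ?_)
    · rw [norm_mul]
      refine mul_le_mul (he a) ?_ (norm_nonneg _) (he0 a)
      rw [norm_prod]
      exact Finset.prod_le_prod (fun i _ => norm_nonneg _) fun i _ => hf i
    · rw [norm_mul]
      exact mul_le_mul (hP a) ih (norm_nonneg _) (hG a)

/-! ### Fubini -/

theorem mB_eq (n : ℕ) (a T : ℝ) : mB n a T =
    (volume : Measure (Fin n → ℝ)).restrict (Set.univ.pi fun _ => Icc a T) := by
  unfold mB
  rw [← Measure.restrict_pi_pi, volume_pi]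

theorem mB_ae (n : ℕ) (a T : ℝ) : ∀ᵐ c ∂(mB n a T), ∀ i, c i ∈ Icc a T := by
  rw [mB_eq]
  filter_upwards [ae_restrict_mem (MeasurableSet.univ_pi fun _ => measurableSet_Icc)] with c hc i
  exact hc i (mem_univ i)

instance mB_fin (n : ℕ) (a T : ℝ) : IsFiniteMeasure (mB n a T) := by
  unfold mB
  infer_instance

theorem meas_cc {n : ℕ} (i : Fin (n + 1)) :
    Measurable (fun c : Fin n → ℝ => (cc c i : ℝ)) := by
  refine Fin.cases ?_ (fun j => ?_) i
  · simp only [cc, Fin.cons_zero]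
    exact measurable_const
  · simp only [cc, Fin.cons_succ]
    exact measurable_pi_apply j

theorem fub_int {n : ℕ} (a T S M : ℝ) (h : Fin (n + 1) → ℝ → ℝ) (hm : ∀ i, Measurable (h i))
    (h0 : ∀ i u, 0 ≤ h i u) (hM : ∀ i u, h i u ≤ M) :
    Integrable (Function.uncurry fun (c : Fin n → ℝ) (t : ℝ) => ∏ i, h i (t + cc c i))
      ((mB n a T).prod (volume.restrict (Ioc 1 S))) := by
  refine Integrable.of_bound ?_ (M ^ (n + 1)) (ae_of_all _ fun p => ?_)
  · refine Measurable.aestronglyMeasurable ?_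
    unfold Function.uncurry
    refine Finset.measurable_fun_prod _ fun i _ => ?_
    exact (hm i).comp (measurable_snd.add ((meas_cc i).comp measurable_fst))
  · unfold Function.uncurry
    rw [Real.norm_of_nonneg (Finset.prod_nonneg fun i _ => h0 i _)]
    calc ∏ i, h i (p.2 + cc p.1 i) ≤ ∏ _i : Fin (n + 1), M :=
          Finset.prod_le_prod (fun i _ => h0 i _) fun i _ => hM i _
      _ = M ^ (n + 1) := by simp

theorem fub {n : ℕ} (a T S M : ℝ) (h : Fin (n + 1) → ℝ → ℝ) (hm : ∀ i, Measurable (h i))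
    (h0 : ∀ i u, 0 ≤ h i u) (hM : ∀ i u, h i u ≤ M) (b : Fin (n + 1) → ℝ)
    (hb0 : ∫ t in Ioc 1 S, h 0 t ≤ b 0)
    (hb : ∀ i : Fin n, ∀ t ∈ Ioc 1 S, ∫ x in Icc a T, h i.succ (t + x) ≤ b i.succ)
    (hbn : ∀ i, 0 ≤ b i) :
    ∫ c, (∫ t in Ioc 1 S, ∏ i, h i (t + cc c i)) ∂(mB n a T) ≤ ∏ i, b i := by
  rw [integral_integral_swap (fub_int a T S M h hm h0 hM)]
  have h1 : ∀ t : ℝ, ∫ c, ∏ i, h i (t + cc c i) ∂(mB n a T) =
      h 0 t * ∏ i : Fin n, ∫ x in Icc a T, h i.succ (t + x) := by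
    intro t
    have h2 : ∀ c : Fin n → ℝ, ∏ i, h i (t + cc c i) = h 0 t * ∏ i : Fin n, h i.succ (t + c i) := by
      intro c
      rw [Fin.prod_univ_succ]
      simp only [cc, Fin.cons_zero, Fin.cons_succ, add_zero]
    simp_rw [h2]
    rw [integral_const_mul]
    unfold mB
    rw [integral_fintype_prod_eq_prod (fun (i : Fin n) (x : ℝ) => h i.succ (t + x))]
  simp_rw [h1]
  have hI : Integrable (h 0) (volume.restrict (Ioc 1 S)) := by
    refine Integrable.of_bound (hm 0).aestronglyMeasurable M (ae_of_all _ fun t => ?_)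
    rw [Real.norm_of_nonneg (h0 0 t)]
    exact hM 0 t
  calc ∫ t in Ioc 1 S, h 0 t * ∏ i : Fin n, ∫ x in Icc a T, h i.succ (t + x)
      ≤ ∫ t in Ioc 1 S, h 0 t * ∏ i : Fin n, b i.succ := by
        refine integral_mono_of_nonneg (ae_of_all _ fun t => ?_) (hI.mul_const _) ?_
        · exact mul_nonneg (h0 0 t) (Finset.prod_nonneg fun i _ =>
            integral_nonneg fun x => h0 _ _)
        · filter_upwards [ae_restrict_mem measurableSet_Ioc] with t ht
          refine mul_le_mul_of_nonneg_left ?_ (h0 0 t)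
          exact Finset.prod_le_prod (fun i _ => integral_nonneg fun x => h0 _ _)
            fun i _ => hb i t ht
    _ = (∫ t in Ioc 1 S, h 0 t) * ∏ i : Fin n, b i.succ := integral_mul_const _ _
    _ ≤ b 0 * ∏ i : Fin n, b i.succ :=
        mul_le_mul_of_nonneg_right hb0 (Finset.prod_nonneg fun i _ => hbn _)
    _ = ∏ i, b i := (Fin.prod_univ_succ b).symm

/-! ### the zeta function -/

theorem ff_cont : Continuous ff := by
  unfold ff
  refine (continuous_iff_continuousAt.2 fun u => ?_).norm.pow 2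
  have h1 : (1 / 2 + I * (u : ℂ)) ≠ 1 := by
    intro h
    have := congrArg Complex.re h
    simp at this
  have h2 := (differentiableAt_riemannZeta h1).continuousAt
  exact ContinuousAt.comp (f := fun u : ℝ => 1 / 2 + I * (u : ℂ)) (g := riemannZeta) h2
    (by fun_prop)

theorem ff_nonneg (u : ℝ) : 0 ≤ ff u := by
  unfold ff
  positivity

/-- the majorant of `ff` and `PX` -/
noncomputable def gT (C1 T u : ℝ) : ℝ := (Icc 0 (2 * T)).indicator (fun u => ff u + C1) u

/-- the error -/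
noncomputable def eT (C1 ε u : ℝ) : ℝ := C1 * (max u 1) ^ (-(1 / 2) + ε / 2)

theorem gT_meas (C1 T : ℝ) : Measurable (gT C1 T) :=
  ((ff_cont.measurable.add_const C1).indicator measurableSet_Icc)

theorem eT_meas (C1 ε : ℝ) : Measurable (eT C1 ε) := by
  unfold eT
  fun_prop

theorem gT_nonneg {C1 : ℝ} (hC : 0 < C1) (T u : ℝ) : 0 ≤ gT C1 T u := by
  unfold gT
  refine indicator_nonneg (fun u _ => ?_) u
  have := ff_nonneg u
  linarith

theorem eT_nonneg {C1 : ℝ} (hC : 0 < C1) (ε u : ℝ) : 0 ≤ eT C1 ε u := by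
  unfold eT
  have : 0 ≤ max u 1 := zero_le_one.trans (le_max_right _ _)
  positivity

theorem eT_le {C1 ε : ℝ} (hC : 0 < C1) (hε : ε < 1 / 4) (u : ℝ) : eT C1 ε u ≤ C1 := by
  unfold eT
  have h1 : (max u 1) ^ (-(1 / 2) + ε / 2) ≤ 1 :=
    Real.rpow_le_one_of_one_le_of_nonpos (le_max_right _ _) (by linarith)
  nlinarith

theorem gT_bdd (C1 T : ℝ) (hC : 0 < C1) : ∃ M : ℝ, C1 ≤ M ∧ ∀ u, gT C1 T u ≤ M := by
  obtain ⟨M, hM⟩ := (isCompact_Icc (a := (0 : ℝ)) (b := 2 * T)).exists_bound_of_continuousOn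
    (f := ff) ff_cont.continuousOn
  refine ⟨|M| + C1, by linarith [abs_nonneg M], fun u => ?_⟩
  unfold gT
  by_cases hu : u ∈ Icc 0 (2 * T)
  · rw [indicator_of_mem hu]
    have h1 := (Real.le_norm_self _).trans (hM u hu)
    have h2 := le_abs_self M
    linarith
  · rw [indicator_of_notMem hu]
    linarith [abs_nonneg M]

theorem gT_int (C1 T : ℝ) : Integrable (gT C1 T) := by
  unfold gT
  rw [integrable_indicator_iff measurableSet_Icc]
  exact (ff_cont.add continuous_const).continuousOn.integrableOn_Icc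

theorem gT_int_eq (C1 T : ℝ) (hT : 0 ≤ T) :
    ∫ u, gT C1 T u = (∫ u in (0 : ℝ)..(2 * T), ff u) + 2 * T * C1 := by
  unfold gT
  rw [integral_indicator measurableSet_Icc, integral_Icc_eq_integral_Ioc,
    ← intervalIntegral.integral_of_le (by linarith),
    intervalIntegral.integral_add (ff_cont.intervalIntegrable _ _) intervalIntegrable_const,
    intervalIntegral.integral_const]
  simp

/-- integral of the error over `t` -/
theorem eT_int0 {C1 ε T S : ℝ} (hC : 0 < C1) (hε : 0 < ε) (hε4 : ε < 1 / 4) (hS : 1 ≤ S)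
    (hST : S ≤ T) : ∫ t in Ioc 1 S, eT C1 ε t ≤ 2 * C1 * T ^ (1 / 2 + ε) := by
  rw [← intervalIntegral.integral_of_le hS]
  have h1 : ∫ t in (1 : ℝ)..S, eT C1 ε t = ∫ t in (1 : ℝ)..S, C1 * t ^ (-(1 / 2) + ε / 2) := by
    refine intervalIntegral.integral_congr fun t ht => ?_
    rw [uIcc_of_le hS] at ht
    unfold eT
    simp only [max_eq_left ht.1]
  rw [h1, intervalIntegral.integral_const_mul, integral_rpow (Or.inl (by linarith)),
    Real.one_rpow]
  have h2 : S ^ (-(1 / 2) + ε / 2 + 1) ≤ T ^ (1 / 2 + ε) := by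
    calc S ^ (-(1 / 2) + ε / 2 + 1) ≤ S ^ (1 / 2 + ε) :=
          Real.rpow_le_rpow_of_exponent_le hS (by linarith)
      _ ≤ T ^ (1 / 2 + ε) := Real.rpow_le_rpow (by linarith) hST (by linarith)
  have h3 : (S ^ (-(1 / 2) + ε / 2 + 1) - 1) / (-(1 / 2) + ε / 2 + 1) ≤ 2 * T ^ (1 / 2 + ε) := by
    have h4 : (0 : ℝ) < -(1 / 2) + ε / 2 + 1 := by linarith
    rw [div_le_iff₀ h4]
    have h5 : 0 ≤ T ^ (1 / 2 + ε) := Real.rpow_nonneg (by linarith) _
    nlinarith
  calc C1 * ((S ^ (-(1 / 2) + ε / 2 + 1) - 1) / (-(1 / 2) + ε / 2 + 1)) ≤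
      C1 * (2 * T ^ (1 / 2 + ε)) := mul_le_mul_of_nonneg_left h3 hC.le
    _ = 2 * C1 * T ^ (1 / 2 + ε) := by ring

/-- integral of the error over a shift -/
theorem eT_int1 {C1 ε T a t : ℝ} (hC : 0 < C1) (hε : 0 < ε) (hε4 : ε < 1 / 4) (hT : 1 ≤ T)
    (ha : T ^ (1 - ε) ≤ a) (haT : a ≤ T) (ht : 0 ≤ t) :
    ∫ x in Icc a T, eT C1 ε (t + x) ≤ 2 * C1 * T ^ (1 / 2 + ε) := by
  have hT0 : 0 < T := by linarith
  have ha1 : 0 < T ^ (1 - ε) := Real.rpow_pos_of_pos hT0 _
  have ha0 : 0 < a := ha1.trans_le ha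
  have h1 : ∀ x ∈ Icc a T, eT C1 ε (t + x) ≤ C1 * T ^ (-(1 / 2) + ε) := by
    intro x hx
    unfold eT
    refine mul_le_mul_of_nonneg_left ?_ hC.le
    calc (max (t + x) 1) ^ (-(1 / 2) + ε / 2) ≤ (T ^ (1 - ε)) ^ (-(1 / 2) + ε / 2) :=
          Real.rpow_le_rpow_of_nonpos ha1 (ha.trans ((by linarith [hx.1] : a ≤ t + x).trans
            (le_max_left _ _))) (by linarith)
      _ = T ^ ((1 - ε) * (-(1 / 2) + ε / 2)) := (Real.rpow_mul hT0.le _ _).symm
      _ ≤ T ^ (-(1 / 2) + ε) := Real.rpow_le_rpow_of_exponent_le hT (by nlinarith)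
  have h2 : ∫ x in Icc a T, eT C1 ε (t + x) ≤ ∫ _x in Icc a T, C1 * T ^ (-(1 / 2) + ε) := by
    refine integral_mono_of_nonneg (ae_of_all _ fun x => eT_nonneg hC _ _) ?_ ?_
    · exact integrable_const _
    · filter_upwards [ae_restrict_mem measurableSet_Icc] with x hx
      exact h1 x hx
  refine h2.trans ?_
  rw [setIntegral_const, smul_eq_mul, Measure.real, Real.volume_Icc, ENNReal.toReal_ofReal
    (by linarith)]
  have h3 : T * T ^ (-(1 / 2) + ε) = T ^ (1 / 2 + ε) := by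
    nth_rewrite 1 [← Real.rpow_one T]
    rw [← Real.rpow_add hT0]
    congr 1
    ring
  have h4 : 0 ≤ T ^ (-(1 / 2) + ε) := by positivity
  calc (T - a) * (C1 * T ^ (-(1 / 2) + ε)) ≤ T * (C1 * T ^ (-(1 / 2) + ε)) :=
        mul_le_mul_of_nonneg_right (by linarith) (by positivity)
    _ = C1 * (T * T ^ (-(1 / 2) + ε)) := by ring
    _ = C1 * T ^ (1 / 2 + ε) := by rw [h3]
    _ ≤ 2 * C1 * T ^ (1 / 2 + ε) := by
        have : 0 ≤ C1 * T ^ (1 / 2 + ε) := by positivity
        linarith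

/-- integral of the majorant -/
theorem gT_int1 {C1 : ℝ} (hC : 0 < C1) (T a t : ℝ) :
    ∫ x in Icc a T, gT C1 T (t + x) ≤ ∫ u, gT C1 T u := by
  rw [← integral_add_left_eq_self (gT C1 T) t]
  exact setIntegral_le_integral ((gT_int C1 T).comp_add_left t)
    (ae_of_all _ fun x => gT_nonneg hC _ _)

theorem gT_int0 {C1 : ℝ} (hC : 0 < C1) (T S : ℝ) :
    ∫ x in Ioc 1 S, gT C1 T x ≤ ∫ u, gT C1 T u :=
  setIntegral_le_integral (gT_int C1 T) (ae_of_all _ fun x => gT_nonneg hC _ _)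

theorem prod_one {n : ℕ} (j : Fin (n + 1)) (D B : ℝ) :
    ∏ i : Fin (n + 1), (if i = j then D else B) = D * B ^ n := by
  rw [← Finset.mul_prod_erase Finset.univ _ (Finset.mem_univ j), if_pos rfl]
  congr 1
  rw [Finset.prod_congr rfl (fun i hi => if_neg (Finset.ne_of_mem_erase hi)), Finset.prod_const,
    Finset.card_erase_of_mem (Finset.mem_univ j)]
  simp

/-- the eventual inequalities -/
theorem evt (n : ℕ) (C1 C2 ε : ℝ) (hε : 0 < ε) : ∃ T₀ : ℝ, 2 ≤ T₀ ∧ ∀ T : ℝ, T₀ ≤ T →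
    (2 : ℝ) ^ (1 + ε / 2) ≤ T ^ (ε / 2) ∧ C2 * Real.log T + 2 * C1 ≤ T ^ ε ∧
    ((n : ℝ) + 1) * (2 * C1) ≤ T ^ ε := by
  have ev1 : ∀ᶠ T : ℝ in atTop, (2 : ℝ) ^ (1 + ε / 2) ≤ T ^ (ε / 2) :=
    (tendsto_rpow_atTop (by positivity)).eventually_ge_atTop _
  have ev3 : ∀ᶠ T : ℝ in atTop, ((n : ℝ) + 1) * (2 * C1) ≤ T ^ ε :=
    (tendsto_rpow_atTop hε).eventually_ge_atTop _
  have ev2 : ∀ᶠ T : ℝ in atTop, C2 * Real.log T + 2 * C1 ≤ T ^ ε := by
    have h1 : (fun T : ℝ => C2 * Real.log T + 2 * C1) =o[atTop] fun T : ℝ => T ^ ε := by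
      refine Asymptotics.IsLittleO.add ?_ ?_
      · exact (isLittleO_log_rpow_atTop hε).const_mul_left C2
      · exact (Asymptotics.isLittleO_const_left.2 (Or.inr (tendsto_norm_atTop_atTop.comp
          (tendsto_rpow_atTop hε))))
    filter_upwards [h1.bound (one_pos), eventually_ge_atTop (0 : ℝ)] with T hT hT0
    rw [one_mul, Real.norm_of_nonneg (Real.rpow_nonneg hT0 ε)] at hT
    exact (Real.le_norm_self _).trans hT
  obtain ⟨T₀, hT₀⟩ := eventually_atTop.1 (ev1.and (ev2.and ev3))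
  exact ⟨max T₀ 2, le_max_right _ _, fun T hT => hT₀ T ((le_max_left _ _).trans hT)⟩

theorem t_RPL (h1 : S_AFE) (h2 : S_SM) : S_RPL := by
  intro n
  refine ⟨n + 2, by positivity, fun ε hε hε4 => ?_⟩
  obtain ⟨C1, hC1, hA⟩ := h1 (ε / 2) (by positivity)
  obtain ⟨C2, hC2, hS2⟩ := h2
  obtain ⟨T₀, hT₀2, hT₀⟩ := evt n C1 C2 ε hε
  refine ⟨T₀, by linarith, fun T a S X hT ha haT hS1 hST hX => ?_⟩
  obtain ⟨e1, e2, e3⟩ := hT₀ T hT
  have hT2 : 2 ≤ T := hT₀2.trans hT
  have hT0 : 0 < T := by linarith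
  have ha1 : 0 < T ^ (1 - ε) := Real.rpow_pos_of_pos hT0 _
  have ha0 : 0 < a := ha1.trans_le ha
  -- the second moment
  have hB : ∫ u, gT C1 T u ≤ T ^ (1 + ε) := by
    rw [gT_int_eq C1 T hT0.le]
    have h3 := hS2 T hT2
    calc (∫ u in (0 : ℝ)..(2 * T), ff u) + 2 * T * C1 ≤ C2 * T * Real.log T + 2 * T * C1 := by
          linarith
      _ = T * (C2 * Real.log T + 2 * C1) := by ring
      _ ≤ T * T ^ ε := mul_le_mul_of_nonneg_left e2 hT0.le
      _ = T ^ (1 + ε) := by rw [Real.rpow_add hT0, Real.rpow_one]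
  obtain ⟨M, hM1, hM2⟩ := gT_bdd C1 T hC1
  -- the families
  obtain ⟨h, hh⟩ : ∃ h : Fin (n + 1) → Fin (n + 1) → ℝ → ℝ, ∀ j i u, h j i u =
      if i = j then eT C1 ε u else gT C1 T u := ⟨_, fun _ _ _ => rfl⟩
  have hm : ∀ j i, Measurable (h j i) := by
    intro j i
    by_cases hij : i = j
    · have : h j i = eT C1 ε := funext fun u => by rw [hh, if_pos hij]
      rw [this]
      exact eT_meas C1 ε
    · have : h j i = gT C1 T := funext fun u => by rw [hh, if_neg hij]
      rw [this]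
      exact gT_meas C1 T
  have h0 : ∀ j i u, 0 ≤ h j i u := by
    intro j i u
    rw [hh]
    split_ifs
    · exact eT_nonneg hC1 _ _
    · exact gT_nonneg hC1 _ _
  have hMb : ∀ j i u, h j i u ≤ M := by
    intro j i u
    rw [hh]
    split_ifs
    · exact (eT_le hC1 hε4 u).trans hM1
    · exact hM2 u
  have hD0 : 0 ≤ 2 * C1 * T ^ (1 / 2 + ε) := by positivity
  have hB0 : 0 ≤ T ^ (1 + ε) := by positivity
  have hfub : ∀ j, ∫ c, (∫ t in Ioc 1 S, ∏ i, h j i (t + cc c i)) ∂(mB n a T) ≤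
      2 * C1 * T ^ (1 / 2 + ε) * (T ^ (1 + ε)) ^ n := by
    intro j
    rw [← prod_one j (2 * C1 * T ^ (1 / 2 + ε)) (T ^ (1 + ε))]
    refine fub a T S M (h j) (hm j) (h0 j) (hMb j)
      (fun i => if i = j then 2 * C1 * T ^ (1 / 2 + ε) else T ^ (1 + ε)) ?_ ?_ ?_
    · by_cases hij : (0 : Fin (n + 1)) = j
      · simp only [hh, if_pos hij]
        exact eT_int0 hC1 hε hε4 hS1 hST
      · simp only [hh, if_neg hij]
        exact (gT_int0 hC1 T S).trans hB
    · intro i t ht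
      by_cases hij : i.succ = j
      · simp only [hh, if_pos hij]
        exact eT_int1 hC1 hε hε4 (by linarith) ha haT (by linarith [ht.1])
      · simp only [hh, if_neg hij]
        exact (gT_int1 hC1 T a t).trans hB
    · intro i
      split_ifs
      · exact hD0
      · exact hB0
  have hinner : ∀ (c : Fin n → ℝ) (j : Fin (n + 1)),
      Integrable (fun t => ∏ i, h j i (t + cc c i)) (volume.restrict (Ioc 1 S)) := by
    intro c j
    refine Integrable.of_bound ?_ (M ^ (n + 1)) (ae_of_all _ fun t => ?_)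
    · refine Measurable.aestronglyMeasurable ?_
      refine Finset.measurable_fun_prod _ fun i _ => ?_
      exact (hm j i).comp (measurable_id.add_const _)
    · rw [Real.norm_of_nonneg (Finset.prod_nonneg fun i _ => h0 j i _)]
      calc ∏ i, h j i (t + cc c i) ≤ ∏ _i : Fin (n + 1), M :=
            Finset.prod_le_prod (fun i _ => h0 j i _) fun i _ => hMb j i _
        _ = M ^ (n + 1) := by simp
  -- the pointwise bound
  have hpt : ∀ c : Fin n → ℝ, (∀ i, c i ∈ Icc a T) → ∀ t ∈ Ioc 1 S,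
      ‖((∏ j, ff (t + cc c j) : ℝ) : ℂ) - ∏ j, PX X (t + cc c j)‖ ≤
        ∑ j, ∏ i, h j i (t + cc c i) := by
    intro c hc t ht
    have hu : ∀ i, 1 ≤ t + cc c i ∧ t + cc c i ≤ 2 * T := by
      intro i
      refine Fin.cases ?_ (fun j => ?_) i
      · simp only [cc, Fin.cons_zero, add_zero]
        exact ⟨ht.1.le, by linarith [ht.2]⟩
      · simp only [cc, Fin.cons_succ]
        have := hc j
        exact ⟨by linarith [this.1, ht.1], by linarith [this.2, ht.2]⟩
    have hg : ∀ i, gT C1 T (t + cc c i) = ff (t + cc c i) + C1 := by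
      intro i
      unfold gT
      rw [indicator_of_mem]
      exact ⟨by linarith [(hu i).1], (hu i).2⟩
    have hE : ∀ i, ‖(ff (t + cc c i) : ℂ) - PX X (t + cc c i)‖ ≤ eT C1 ε (t + cc c i) := by
      intro i
      unfold eT
      rw [max_eq_left (hu i).1]
      refine hA (t + cc c i) X (hu i).1 ?_
      calc (t + cc c i) ^ (1 + ε / 2) ≤ (2 * T) ^ (1 + ε / 2) :=
            Real.rpow_le_rpow (by linarith [(hu i).1]) (hu i).2 (by positivity)
        _ = 2 ^ (1 + ε / 2) * T ^ (1 + ε / 2) := Real.mul_rpow (by norm_num) hT0.le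
        _ ≤ T ^ (ε / 2) * T ^ (1 + ε / 2) := mul_le_mul_of_nonneg_right e1 (by positivity)
        _ = T ^ (1 + ε) := by
            rw [← Real.rpow_add hT0]
            congr 1
            ring
        _ ≤ X := hX
    have h3 := tele Finset.univ (fun i => (ff (t + cc c i) : ℂ)) (fun i => PX X (t + cc c i))
      (fun i => eT C1 ε (t + cc c i)) (fun i => gT C1 T (t + cc c i)) ?_ ?_ hE
    · rw [Complex.ofReal_prod]
      refine h3.trans (le_of_eq ?_)
      refine Finset.sum_congr rfl fun j _ => Finset.prod_congr rfl fun i _ => ?_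
      rw [hh]
    · intro i
      rw [hg, Complex.norm_real, Real.norm_of_nonneg (ff_nonneg _)]
      linarith
    · intro i
      rw [hg]
      have h4 : PX X (t + cc c i) = (ff (t + cc c i) : ℂ) -
          ((ff (t + cc c i) : ℂ) - PX X (t + cc c i)) := by ring
      rw [h4]
      refine (norm_sub_le _ _).trans (add_le_add ?_ ((hE i).trans (eT_le hC1 hε4 _)))
      rw [Complex.norm_real, Real.norm_of_nonneg (ff_nonneg _)]
  -- the integrals
  calc ∫ c, (∫ t in (1 : ℝ)..S, ‖((∏ j, ff (t + cc c j) : ℝ) : ℂ) - ∏ j, PX X (t + cc c j)‖)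
        ∂(mB n a T)
      ≤ ∫ c, (∑ j, ∫ t in Ioc 1 S, ∏ i, h j i (t + cc c i)) ∂(mB n a T) := by
        refine integral_mono_of_nonneg (ae_of_all _ fun c => ?_) ?_ ?_
        · simp only [Pi.zero_apply]
          rw [intervalIntegral.integral_of_le hS1]
          exact integral_nonneg fun t => norm_nonneg _
        · refine integrable_finsetSum _ fun j _ => ?_
          exact (fub_int a T S M (h j) (hm j) (h0 j) (hMb j)).integral_prod_left
        · filter_upwards [mB_ae n a T] with c hc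
          rw [intervalIntegral.integral_of_le hS1, ← integral_finsetSum _ fun j _ => hinner c j]
          refine integral_mono_of_nonneg (ae_of_all _ fun t => norm_nonneg _)
            (integrable_finsetSum _ fun j _ => hinner c j) ?_
          filter_upwards [ae_restrict_mem measurableSet_Ioc] with t ht
          exact hpt c hc t ht
    _ = ∑ j, ∫ c, (∫ t in Ioc 1 S, ∏ i, h j i (t + cc c i)) ∂(mB n a T) := by
        refine integral_finsetSum _ fun j _ => ?_
        exact (fub_int a T S M (h j) (hm j) (h0 j) (hMb j)).integral_prod_left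
    _ ≤ ∑ _j : Fin (n + 1), 2 * C1 * T ^ (1 / 2 + ε) * (T ^ (1 + ε)) ^ n :=
        Finset.sum_le_sum fun j _ => hfub j
    _ = (((n : ℝ) + 1) * (2 * C1)) * (T ^ (1 / 2 + ε) * (T ^ (1 + ε)) ^ n) := by
        rw [Finset.sum_const, Finset.card_univ, Fintype.card_fin, nsmul_eq_mul]
        push_cast
        ring
    _ ≤ T ^ ε * (T ^ (1 / 2 + ε) * (T ^ (1 + ε)) ^ n) :=
        mul_le_mul_of_nonneg_right e3 (by positivity)
    _ = T ^ ((n : ℝ) + 1 / 2 + ((n : ℝ) + 2) * ε) := by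
        rw [← Real.rpow_natCast, ← Real.rpow_mul hT0.le, ← Real.rpow_add hT0,
          ← Real.rpow_add hT0]
        congr 1
        ring

end Pool.Agent.Y434.GP
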